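import Mathlib

namespace Pool.Agent.Helper461.Sweep

/-- Memory states: `(a, i, r)` is the sweep over the levels `a, …, a + i + r`, now at the level
`a + i`, with `r` further levels to come. -/
abbrev S : Type := ℕ × ℕ × ℕ

def lev (s : S) : ℕ := s.1 + s.2.1

/-- The state after an unsuccessful slot. -/
def fl (s : S) : S :=
  if s.2.2 = 0 then (s.1 - 1, 0, (s.1 + s.2.1 + 1) - (s.1 - 1)) else (s.1, s.2.1 + 1, s.2.2 - 1)

/-- The state after a successful slot. -/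
def sc (s : S) : S := (lev s, 0, 0)

/-- distance of the target level `k` from the interval `[a, e]`. -/
def mm (k a e : ℕ) : ℝ := ((k - e : ℕ) : ℝ) + ((a - k : ℕ) : ℝ)

noncomputable def SS (k a e : ℕ) : ℝ :=
  mm k a e * ((e : ℝ) - a + 1) + mm k a e ^ 2 - mm k a e + 10 * (((e : ℝ) - a + 1) + 2 * mm k a e)
    + 200

noncomputable def ind (P : Prop) : ℝ := open Classical in if P then 1 / 10 else 0

lemma ind_pos {P : Prop} (h : P) : ind P = 1 / 10 := if_pos h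
lemma ind_neg {P : Prop} (h : ¬ P) : ind P = 0 := if_neg h
lemma ind_congr {P Q : Prop} (h : P ↔ Q) : ind P = ind Q := by rw [propext h]
lemma ind_nonneg (P : Prop) : 0 ≤ ind P := by unfold ind; split_ifs <;> norm_num
lemma ind_le (P : Prop) : ind P ≤ 1 / 10 := by unfold ind; split_ifs <;> norm_num

lemma mm_nonneg (k a e : ℕ) : 0 ≤ mm k a e := by unfold mm; positivity

lemma mm_sq (k a e : ℕ) (h : a ≤ e) : 0 ≤ mm k a e ^ 2 - mm k a e := by
  unfold mm
  rcases le_total k e with h1 | h1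
  · have h2 : k - e = 0 := Nat.sub_eq_zero_of_le h1
    rw [h2]
    rcases Nat.eq_zero_or_pos (a - k) with h3 | h3
    · rw [h3]; norm_num
    · have : (1 : ℝ) ≤ ((a - k : ℕ) : ℝ) := by exact_mod_cast h3
      push_cast
      nlinarith
  · have h2 : a - k = 0 := Nat.sub_eq_zero_of_le (h.trans h1)
    rw [h2]
    rcases Nat.eq_zero_or_pos (k - e) with h3 | h3
    · rw [h3]; norm_num
    · have : (1 : ℝ) ≤ ((k - e : ℕ) : ℝ) := by exact_mod_cast h3
      push_cast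
      nlinarith

lemma SS_ge (k a e : ℕ) (h : a ≤ e) : 210 ≤ SS k a e := by
  have h1 := mm_nonneg k a e
  have h2 := mm_sq k a e h
  have h3 : (a : ℝ) ≤ e := by exact_mod_cast h
  unfold SS
  nlinarith [mul_nonneg h1 (sub_nonneg.mpr h3)]

/-- The sweep inequality. -/
lemma SS_step (k a e : ℕ) (h : a ≤ e) :
    ((e : ℝ) - a + 1) + (1 - ind (a ≤ k ∧ k ≤ e)) * SS k (a - 1) (e + 1) ≤ SS k a e := by
  have h3 : (a : ℝ) ≤ e := by exact_mod_cast h
  rcases Nat.eq_zero_or_pos a with ha | ha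
  · subst ha
    by_cases hk : k ≤ e
    · have e1 : k - e = 0 := Nat.sub_eq_zero_of_le hk
      have e2 : k - (e + 1) = 0 := by omega
      have e3 : 0 - k = 0 := by omega
      rw [ind_pos ⟨Nat.zero_le k, hk⟩]
      simp only [SS, mm, e1, e2, e3]
      norm_num
      linarith
    · obtain ⟨m, hm⟩ : ∃ m, k = e + 1 + m := ⟨k - (e + 1), by omega⟩
      have e1 : k - e = m + 1 := by omega
      have e2 : k - (e + 1) = m := by omega
      have e3 : 0 - k = 0 := by omega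
      rw [ind_neg (fun h => hk h.2)]
      simp only [SS, mm, e1, e2, e3]
      have hm0 : (0 : ℝ) ≤ m := Nat.cast_nonneg m
      have he0 : (0 : ℝ) ≤ e := Nat.cast_nonneg e
      norm_num
      nlinarith [mul_nonneg hm0 he0]
  · obtain ⟨b, rfl⟩ : ∃ b, a = b + 1 := ⟨a - 1, by omega⟩
    simp only [Nat.add_sub_cancel]
    have hb0 : (0 : ℝ) ≤ b := Nat.cast_nonneg b
    by_cases hk : k ≤ e
    · have e1 : k - e = 0 := Nat.sub_eq_zero_of_le hk
      have e2 : k - (e + 1) = 0 := by omega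
      by_cases hk2 : b + 1 ≤ k
      · have e3 : b + 1 - k = 0 := by omega
        have e4 : b - k = 0 := by omega
        rw [ind_pos ⟨hk2, hk⟩]
        simp only [SS, mm, e1, e2, e3, e4]
        push_cast at h3
        norm_num
        linarith
      · obtain ⟨m, hm⟩ : ∃ m, b = k + m := ⟨b - k, by omega⟩
        have e3 : b + 1 - k = m + 1 := by omega
        have e4 : b - k = m := by omega
        rw [ind_neg (fun h => hk2 h.1)]
        simp only [SS, mm, e1, e2, e3, e4]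
        have hm0 : (0 : ℝ) ≤ m := Nat.cast_nonneg m
        push_cast at h3
        norm_num
        nlinarith
    · obtain ⟨m, hm⟩ : ∃ m, k = e + 1 + m := ⟨k - (e + 1), by omega⟩
      have e1 : k - e = m + 1 := by omega
      have e2 : k - (e + 1) = m := by omega
      have e3 : b + 1 - k = 0 := by omega
      have e4 : b - k = 0 := by omega
      rw [ind_neg (fun h => hk h.2)]
      simp only [SS, mm, e1, e2, e3, e4]
      have hm0 : (0 : ℝ) ≤ m := Nat.cast_nonneg m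
      push_cast at h3
      norm_num
      nlinarith

noncomputable def Phi (k : ℕ) (s : S) : ℝ :=
  ((s.2.2 : ℝ) + 1) + (1 - ind (lev s ≤ k ∧ k ≤ lev s + s.2.2)) *
    SS k (s.1 - 1) (s.1 + s.2.1 + s.2.2 + 1)


lemma Phi_nonneg (k : ℕ) (s : S) : 0 ≤ Phi k s := by
  unfold Phi
  have h1 := ind_nonneg (lev s ≤ k ∧ k ≤ lev s + s.2.2)
  have h2 := ind_le (lev s ≤ k ∧ k ≤ lev s + s.2.2)
  have h3 := SS_ge k (s.1 - 1) (s.1 + s.2.1 + s.2.2 + 1) (by omega)
  have h4 : (0 : ℝ) ≤ s.2.2 := Nat.cast_nonneg _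
  have : 0 ≤ (1 - ind (lev s ≤ k ∧ k ≤ lev s + s.2.2)) *
    SS k (s.1 - 1) (s.1 + s.2.1 + s.2.2 + 1) := mul_nonneg (by linarith) (by linarith)
  linarith

/-- One unsuccessful step. -/
lemma Phi_step (k : ℕ) (s : S) :
    1 + (1 - ind (lev s = k)) * Phi k (fl s) ≤ Phi k s := by
  obtain ⟨a, i, r⟩ := s
  rcases Nat.eq_zero_or_pos r with hr | hr
  · subst hr
    have hfl : fl (a, i, 0) = (a - 1, 0, (a + i + 1) - (a - 1)) := by simp [fl]
    rw [hfl]
    have hle : a - 1 ≤ a + i + 1 := by omega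
    have hstep := SS_step k (a - 1) (a + i + 1) hle
    have e1 : a - 1 + ((a + i + 1) - (a - 1)) = a + i + 1 := by omega
    have e2 : a - 1 + 0 + ((a + i + 1) - (a - 1)) + 1 = a + i + 1 + 1 := by omega
    have hPhi' : Phi k (a - 1, 0, (a + i + 1) - (a - 1)) =
        (((a + i + 1 : ℕ) : ℝ) - ((a - 1 : ℕ) : ℝ) + 1) +
          (1 - ind (a - 1 ≤ k ∧ k ≤ a + i + 1)) * SS k (a - 1 - 1) (a + i + 1 + 1) := by
      simp only [Phi, lev, add_zero, e1]
      rw [Nat.cast_sub hle]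
    have hle2 : Phi k (a - 1, 0, (a + i + 1) - (a - 1)) ≤ SS k (a - 1) (a + i + 1) := by
      rw [hPhi']; exact hstep
    have hPhi : Phi k (a, i, 0) = 1 + (1 - ind (a + i = k)) * SS k (a - 1) (a + i + 1) := by
      have h0 : ind (lev (a, i, 0) ≤ k ∧ k ≤ lev (a, i, 0) + 0) = ind (a + i = k) :=
        ind_congr (by simp only [lev]; omega)
      have h00 : Phi k (a, i, 0) = (((0 : ℕ) : ℝ) + 1) +
        (1 - ind (lev (a, i, 0) ≤ k ∧ k ≤ lev (a, i, 0) + 0)) * SS k (a - 1) (a + i + 0 + 1) := rfl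
      rw [h00, h0]
      norm_num
    rw [hPhi]
    have h1 := ind_le (a + i = k)
    have h2 : ind (lev (a, i, 0) = k) = ind (a + i = k) := rfl
    rw [h2]
    have : (1 - ind (a + i = k)) * Phi k (a - 1, 0, (a + i + 1) - (a - 1)) ≤
        (1 - ind (a + i = k)) * SS k (a - 1) (a + i + 1) :=
      mul_le_mul_of_nonneg_left hle2 (by linarith)
    linarith
  · obtain ⟨q, rfl⟩ : ∃ q, r = q + 1 := ⟨r - 1, by omega⟩
    have hfl : fl (a, i, q + 1) = (a, i + 1, q) := by simp [fl]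
    rw [hfl]
    have hSS := SS_ge k (a - 1) (a + i + (q + 1) + 1) (by omega)
    have hPhi' : Phi k (a, i + 1, q) = ((q : ℝ) + 1) +
        (1 - ind (a + i + 1 ≤ k ∧ k ≤ a + i + (q + 1))) * SS k (a - 1) (a + i + (q + 1) + 1) := by
      have h0 : ind (lev (a, i + 1, q) ≤ k ∧ k ≤ lev (a, i + 1, q) + q) =
          ind (a + i + 1 ≤ k ∧ k ≤ a + i + (q + 1)) := ind_congr (by simp only [lev]; omega)
      have h00 : Phi k (a, i + 1, q) = ((q : ℝ) + 1) +
        (1 - ind (lev (a, i + 1, q) ≤ k ∧ k ≤ lev (a, i + 1, q) + q)) *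
          SS k (a - 1) (a + (i + 1) + q + 1) := rfl
      have e1 : a + (i + 1) + q + 1 = a + i + (q + 1) + 1 := by ring
      rw [h00, h0, e1]
    have hPhi : Phi k (a, i, q + 1) = ((q : ℝ) + 1 + 1) +
        (1 - ind (a + i ≤ k ∧ k ≤ a + i + (q + 1))) * SS k (a - 1) (a + i + (q + 1) + 1) := by
      have h00 : Phi k (a, i, q + 1) = (((q + 1 : ℕ) : ℝ) + 1) +
        (1 - ind (lev (a, i, q + 1) ≤ k ∧ k ≤ lev (a, i, q + 1) + (q + 1))) *
          SS k (a - 1) (a + i + (q + 1) + 1) := rfl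
      rw [h00]
      push_cast
      rfl
    rw [hPhi, hPhi']
    have hq : (0 : ℝ) ≤ q := Nat.cast_nonneg q
    have h2 : ind (lev (a, i, q + 1) = k) = ind (a + i = k) := rfl
    rw [h2]
    set T := SS k (a - 1) (a + i + (q + 1) + 1)
    by_cases h : a + i = k
    · have h5 : a + i ≤ k ∧ k ≤ a + i + (q + 1) := by omega
      have h6 : ¬ (a + i + 1 ≤ k ∧ k ≤ a + i + (q + 1)) := by omega
      rw [ind_pos h, ind_pos h5, ind_neg h6]
      nlinarith
    · by_cases h3 : a + i ≤ k ∧ k ≤ a + i + (q + 1)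
      · have h6 : a + i + 1 ≤ k ∧ k ≤ a + i + (q + 1) := by omega
        rw [ind_neg h, ind_pos h3, ind_pos h6]
        linarith
      · have h6 : ¬ (a + i + 1 ≤ k ∧ k ≤ a + i + (q + 1)) := by omega
        rw [ind_neg h, ind_neg h3, ind_neg h6]
        linarith

/-- `SS` grows slowly in the target level. -/
lemma SS_succ (k a e : ℕ) (h : a ≤ e) : SS (k + 1) a e ≤ SS k a e + (if k < e then (0 : ℝ) else 2 * (k : ℝ) + 21) := by
  have h3 : (a : ℝ) ≤ e := by exact_mod_cast h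
  have ha0 : (0 : ℝ) ≤ a := Nat.cast_nonneg a
  by_cases hk : k < e
  · rw [if_pos hk]
    have e1 : k - e = 0 := by omega
    have e2 : k + 1 - e = 0 := by omega
    rcases Nat.lt_or_ge k a with h1 | h1
    · obtain ⟨m, hm⟩ : ∃ m, a = k + 1 + m := ⟨a - (k + 1), by omega⟩
      have e3 : a - (k + 1) = m := by omega
      have e4 : a - k = m + 1 := by omega
      simp only [SS, mm, e1, e2, e3, e4]
      have hm0 : (0 : ℝ) ≤ m := Nat.cast_nonneg m
      norm_num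
      nlinarith
    · have e3 : a - (k + 1) = 0 := by omega
      have e4 : a - k = 0 := by omega
      simp only [SS, mm, e1, e2, e3, e4]
      norm_num
  · rw [if_neg hk]
    obtain ⟨m, rfl⟩ : ∃ m, k = e + m := ⟨k - e, by omega⟩
    have e1 : e + m - e = m := by omega
    have e2 : e + m + 1 - e = m + 1 := by omega
    have e3 : a - (e + m + 1) = 0 := by omega
    have e4 : a - (e + m) = 0 := by omega
    simp only [SS, mm, e1, e2, e3, e4]
    have hm0 : (0 : ℝ) ≤ m := Nat.cast_nonneg m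
    push_cast
    nlinarith

lemma Phi_succ (k : ℕ) (s : S) : Phi (k + 1) s ≤ Phi k s + (2 * k + 22) := by
  obtain ⟨a, i, r⟩ := s
  have hle : a - 1 ≤ a + i + r + 1 := by omega
  have h1 := SS_succ k (a - 1) (a + i + r + 1) hle
  have h210 := SS_ge k (a - 1) (a + i + r + 1) hle
  have h210' := SS_ge (k + 1) (a - 1) (a + i + r + 1) hle
  have hk0 : (0 : ℝ) ≤ k := Nat.cast_nonneg k
  have hP1 : Phi (k + 1) (a, i, r) = ((r : ℝ) + 1) +
    (1 - ind (a + i ≤ k + 1 ∧ k + 1 ≤ a + i + r)) * SS (k + 1) (a - 1) (a + i + r + 1) := rfl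
  have hP0 : Phi k (a, i, r) = ((r : ℝ) + 1) +
    (1 - ind (a + i ≤ k ∧ k ≤ a + i + r)) * SS k (a - 1) (a + i + r + 1) := rfl
  rw [hP1, hP0]
  by_cases hA : a + i ≤ k ∧ k ≤ a + i + r
  · by_cases hB : a + i ≤ k + 1 ∧ k + 1 ≤ a + i + r
    · rw [ind_pos hA, ind_pos hB]
      rw [if_pos (by omega)] at h1
      nlinarith
    · rw [ind_pos hA, ind_neg hB]
      rw [if_pos (by omega)] at h1
      -- here `k = a + i + r`
      have hk : k = a + i + r := by omega
      have e1 : k - (a + i + r + 1) = 0 := by omega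
      have e2 : a - 1 - k = 0 := by omega
      have hS : SS k (a - 1) (a + i + r + 1) =
          10 * (((a + i + r + 1 : ℕ) : ℝ) - ((a - 1 : ℕ) : ℝ) + 1) + 200 := by
        simp only [SS, mm, e1, e2]
        norm_num
      have h5 : ((a + i + r + 1 : ℕ) : ℝ) = k + 1 := by rw [hk]; push_cast; ring
      have h6 : (0 : ℝ) ≤ ((a - 1 : ℕ) : ℝ) := Nat.cast_nonneg _
      rw [h5] at hS
      linarith
  · by_cases hB : a + i ≤ k + 1 ∧ k + 1 ≤ a + i + r
    · rw [ind_neg hA, ind_pos hB]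
      rw [if_pos (by omega)] at h1
      linarith
    · rw [ind_neg hA, ind_neg hB]
      split_ifs at h1 <;> linarith

/-- The potential just after a success. -/
lemma Phi_sc (k : ℕ) (s : S) (d : ℕ) (hd1 : k ≤ lev s + d) (hd2 : lev s ≤ k + d) :
    Phi k (sc s) ≤ (d : ℝ) ^ 2 + 23 * d + 231 := by
  set l := lev s with hl
  have h1 : Phi k (sc s) = (((0 : ℕ) : ℝ) + 1) + (1 - ind (l + 0 ≤ k ∧ k ≤ l + 0 + 0)) *
      SS k (l - 1) (l + 0 + 0 + 1) := rfl
  rw [h1]
  have hi := ind_nonneg (l + 0 ≤ k ∧ k ≤ l + 0 + 0)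
  have h210 := SS_ge k (l - 1) (l + 0 + 0 + 1) (by omega)
  have hm0 := mm_nonneg k (l - 1) (l + 0 + 0 + 1)
  have hmd : mm k (l - 1) (l + 0 + 0 + 1) ≤ d := by
    unfold mm
    have : (k - (l + 0 + 0 + 1)) + (l - 1 - k) ≤ d := by omega
    exact_mod_cast this
  have hn : ((l + 0 + 0 + 1 : ℕ) : ℝ) - ((l - 1 : ℕ) : ℝ) + 1 ≤ 3 := by
    have : l ≤ (l - 1) + 1 := by omega
    have h2 : (l : ℝ) ≤ ((l - 1 : ℕ) : ℝ) + 1 := by exact_mod_cast this
    push_cast
    linarith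
  have hn0 : 0 ≤ ((l + 0 + 0 + 1 : ℕ) : ℝ) - ((l - 1 : ℕ) : ℝ) + 1 := by
    have : l - 1 ≤ l := by omega
    have h2 : ((l - 1 : ℕ) : ℝ) ≤ l := by exact_mod_cast this
    push_cast
    linarith
  have hS : SS k (l - 1) (l + 0 + 0 + 1) ≤ (d : ℝ) ^ 2 + 23 * d + 230 := by
    unfold SS
    set m := mm k (l - 1) (l + 0 + 0 + 1)
    set n := ((l + 0 + 0 + 1 : ℕ) : ℝ) - ((l - 1 : ℕ) : ℝ) + 1
    have : m * n ≤ 3 * m := by nlinarith
    nlinarith
  have : (1 - ind (l + 0 ≤ k ∧ k ≤ l + 0 + 0)) * SS k (l - 1) (l + 0 + 0 + 1) ≤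
      SS k (l - 1) (l + 0 + 0 + 1) := by nlinarith
  push_cast at this ⊢
  linarith

/-- Slowly varying envelope of `Phi 0`. -/
noncomputable def Env (s : S) : ℝ :=
  ((s.2.1 : ℝ) + s.2.2 + 1) + SS 0 (s.1 - 1) (s.1 + s.2.1 + s.2.2 + 1)

lemma Phi_le_Env (s : S) : Phi 0 s ≤ Env s := by
  have hi := ind_nonneg (lev s ≤ 0 ∧ 0 ≤ lev s + s.2.2)
  have h210 := SS_ge 0 (s.1 - 1) (s.1 + s.2.1 + s.2.2 + 1) (by omega)
  have h0 : (0 : ℝ) ≤ s.2.1 := Nat.cast_nonneg _
  unfold Phi Env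
  nlinarith

lemma Env_nonneg (s : S) : 0 ≤ Env s := (Phi_nonneg 0 s).trans (Phi_le_Env s)

lemma Env_step (s : S) : Env (fl s) ≤ Env s + 12 := by
  obtain ⟨a, i, r⟩ := s
  rcases Nat.eq_zero_or_pos r with hr | hr
  · subst hr
    have hfl : fl (a, i, 0) = (a - 1, 0, (a + i + 1) - (a - 1)) := by simp [fl]
    rw [hfl]
    have hle : a - 1 ≤ a + i + 1 := by omega
    have e2 : a - 1 + 0 + ((a + i + 1) - (a - 1)) + 1 = a + i + 1 + 1 := by omega
    have hE' : Env (a - 1, 0, (a + i + 1) - (a - 1)) =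
        (((a + i + 1 : ℕ) : ℝ) - ((a - 1 : ℕ) : ℝ) + 1) + SS 0 (a - 1 - 1) (a + i + 1 + 1) := by
      have h00 : Env (a - 1, 0, (a + i + 1) - (a - 1)) =
        (((0 : ℕ) : ℝ) + (((a + i + 1) - (a - 1) : ℕ) : ℝ) + 1) +
          SS 0 (a - 1 - 1) (a - 1 + 0 + ((a + i + 1) - (a - 1)) + 1) := rfl
      rw [h00, e2, Nat.cast_sub hle]
      push_cast; ring
    have hE : Env (a, i, 0) = ((i : ℝ) + ((0 : ℕ) : ℝ) + 1) + SS 0 (a - 1) (a + i + 0 + 1) := rfl
    rw [hE', hE]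
    rcases Nat.eq_zero_or_pos (a - 1) with h1 | h1
    · rw [h1]
      have ha : (a : ℝ) ≤ 1 := by
        have : a ≤ 1 := by omega
        exact_mod_cast this
      simp only [SS, mm]
      norm_num
      linarith
    · obtain ⟨b, rfl⟩ : ∃ b, a = b + 2 := ⟨a - 2, by omega⟩
      have hstep := SS_step 0 (b + 2 - 1) (b + 2 + i + 1) (by omega)
      rw [ind_neg (by omega)] at hstep
      have hi : (0 : ℝ) ≤ i := Nat.cast_nonneg i
      simp only [add_zero] at hstep ⊢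
      linarith
  · obtain ⟨q, rfl⟩ : ∃ q, r = q + 1 := ⟨r - 1, by omega⟩
    have hfl : fl (a, i, q + 1) = (a, i + 1, q) := by simp [fl]
    rw [hfl]
    have h1 : Env (a, i + 1, q) = (((i + 1 : ℕ) : ℝ) + q + 1) +
      SS 0 (a - 1) (a + (i + 1) + q + 1) := rfl
    have h2 : Env (a, i, q + 1) = ((i : ℝ) + ((q + 1 : ℕ) : ℝ) + 1) +
      SS 0 (a - 1) (a + i + (q + 1) + 1) := rfl
    have e1 : a + (i + 1) + q + 1 = a + i + (q + 1) + 1 := by ring
    rw [h1, h2, e1]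
    push_cast
    linarith

lemma Env_sc (s : S) : Env (sc s) ≤ (lev s : ℝ) ^ 2 + 23 * lev s + 231 := by
  set l := lev s with hl
  have h1 : Env (sc s) = (((0 : ℕ) : ℝ) + ((0 : ℕ) : ℝ) + 1) +
      SS 0 (l - 1) (l + 0 + 0 + 1) := rfl
  rw [h1]
  have hm0 := mm_nonneg 0 (l - 1) (l + 0 + 0 + 1)
  have hmd : mm 0 (l - 1) (l + 0 + 0 + 1) ≤ l := by
    unfold mm
    have : (0 - (l + 0 + 0 + 1)) + (l - 1 - 0) ≤ l := by omega
    exact_mod_cast this
  have hn : ((l + 0 + 0 + 1 : ℕ) : ℝ) - ((l - 1 : ℕ) : ℝ) + 1 ≤ 3 := by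
    have : l ≤ (l - 1) + 1 := by omega
    have h2 : (l : ℝ) ≤ ((l - 1 : ℕ) : ℝ) + 1 := by exact_mod_cast this
    push_cast
    linarith
  unfold SS
  set m := mm 0 (l - 1) (l + 0 + 0 + 1)
  set n := ((l + 0 + 0 + 1 : ℕ) : ℝ) - ((l - 1 : ℕ) : ℝ) + 1
  have : m * n ≤ 3 * m := by nlinarith
  push_cast
  nlinarith

end Pool.Agent.Helper461.Sweep
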