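import Mathlib
import Pool.Agent.Helper461.Sweep

namespace Pool.Agent.Helper461.Drift

open Pool.Agent.Helper461.Sweep

/-- Interpolated potential for backlog `w ≥ 1`. -/
noncomputable def Phw (w : ℕ) (s : S) : ℝ :=
  (1 - ((w : ℝ) - 2 ^ Nat.log 2 w) / 2 ^ Nat.log 2 w) * Phi (Nat.log 2 w) s +
    ((w : ℝ) - 2 ^ Nat.log 2 w) / 2 ^ Nat.log 2 w * Phi (Nat.log 2 w + 1) s

lemma theta_bounds (w : ℕ) (hw : 1 ≤ w) :
    0 ≤ ((w : ℝ) - 2 ^ Nat.log 2 w) / 2 ^ Nat.log 2 w ∧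
    ((w : ℝ) - 2 ^ Nat.log 2 w) / 2 ^ Nat.log 2 w ≤ 1 := by
  have h1 : 2 ^ Nat.log 2 w ≤ w := Nat.pow_log_le_self 2 (by omega)
  have h2 : w < 2 ^ (Nat.log 2 w + 1) := Nat.lt_pow_succ_log_self (by norm_num) w
  have h1' : (2 : ℝ) ^ Nat.log 2 w ≤ w := by exact_mod_cast h1
  have h2' : (w : ℝ) < 2 ^ (Nat.log 2 w + 1) := by exact_mod_cast h2
  have hpos : (0 : ℝ) < 2 ^ Nat.log 2 w := by positivity
  rw [pow_succ] at h2'
  constructor
  · apply div_nonneg <;> linarith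
  · rw [div_le_one hpos]; linarith

lemma Phw_nonneg (w : ℕ) (hw : 1 ≤ w) (s : S) : 0 ≤ Phw w s := by
  obtain ⟨h1, h2⟩ := theta_bounds w hw
  unfold Phw
  have h3 := Phi_nonneg (Nat.log 2 w) s
  have h4 := Phi_nonneg (Nat.log 2 w + 1) s
  have := mul_nonneg (sub_nonneg.mpr h2) h3
  have := mul_nonneg h1 h4
  linarith

lemma Phw_one (s : S) : Phw 1 s = Phi 0 s := by
  simp [Phw]

lemma Phw_succ (w : ℕ) (hw : 1 ≤ w) (s : S) : Phw (w + 1) s ≤ Phw w s + 22 := by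
  set k := Nat.log 2 w with hk
  have h1 : 2 ^ k ≤ w := Nat.pow_log_le_self 2 (by omega)
  have h2 : w < 2 ^ (k + 1) := Nat.lt_pow_succ_log_self (by norm_num) w
  have hpos : (0 : ℝ) < 2 ^ k := by positivity
  have hform : Phw (w + 1) s = (1 - (((w + 1 : ℕ) : ℝ) - 2 ^ k) / 2 ^ k) * Phi k s +
      (((w + 1 : ℕ) : ℝ) - 2 ^ k) / 2 ^ k * Phi (k + 1) s := by
    rcases Nat.lt_or_ge (w + 1) (2 ^ (k + 1)) with h3 | h3
    · have : Nat.log 2 (w + 1) = k := by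
        rw [Nat.log_eq_iff (Or.inr ⟨by norm_num, by omega⟩)]
        exact ⟨by omega, h3⟩
      simp only [Phw, this]
    · have h4 : w + 1 = 2 ^ (k + 1) := by omega
      have h5 : Nat.log 2 (w + 1) = k + 1 := by rw [h4]; exact Nat.log_pow (by norm_num) _
      simp only [Phw, h5]
      have h6 : ((w + 1 : ℕ) : ℝ) = 2 ^ (k + 1) := by rw [h4]; push_cast; ring
      rw [h6]
      have h7 : ((2 : ℝ) ^ (k + 1) - 2 ^ k) / 2 ^ k = 1 := by
        rw [pow_succ]; field_simp; ring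
      rw [h7]; simp
  have hP := Phi_succ k s
  have hk2 : (2 * (k : ℝ) + 22) / 2 ^ k ≤ 22 := by
    rw [div_le_iff₀ hpos]
    have h3 : k + 1 ≤ 2 ^ k := Nat.lt_two_pow_self
    have h4 : (k : ℝ) + 1 ≤ 2 ^ k := by exact_mod_cast h3
    have h5 : (0 : ℝ) ≤ k := Nat.cast_nonneg k
    linarith
  rw [hform]
  have hw' : Phw w s = (1 - ((w : ℝ) - 2 ^ k) / 2 ^ k) * Phi k s +
      ((w : ℝ) - 2 ^ k) / 2 ^ k * Phi (k + 1) s := rfl
  rw [hw']
  have h8 : (1 - (((w + 1 : ℕ) : ℝ) - 2 ^ k) / 2 ^ k) * Phi k s +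
      (((w + 1 : ℕ) : ℝ) - 2 ^ k) / 2 ^ k * Phi (k + 1) s -
      ((1 - ((w : ℝ) - 2 ^ k) / 2 ^ k) * Phi k s +
      ((w : ℝ) - 2 ^ k) / 2 ^ k * Phi (k + 1) s) = (Phi (k + 1) s - Phi k s) / 2 ^ k := by
    push_cast; field_simp; ring
  have h9 : (Phi (k + 1) s - Phi k s) / 2 ^ k ≤ (2 * (k : ℝ) + 22) / 2 ^ k := by
    gcongr; linarith
  linarith

lemma Phw_add (w : ℕ) (hw : 1 ≤ w) (s : S) (a : ℕ) : Phw (w + a) s ≤ Phw w s + 22 * a := by
  induction a with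
  | zero => simp
  | succ a ih =>
    have := Phw_succ (w + a) (by omega) s
    push_cast
    rw [← add_assoc]
    linarith

/-- Success probability. -/
noncomputable def Gp (w : ℕ) (p : ℝ) : ℝ := (w : ℝ) * p * (1 - p) ^ (w - 1)

lemma Gp_nonneg (w : ℕ) {p : ℝ} (h0 : 0 ≤ p) (h1 : p ≤ 1) : 0 ≤ Gp w p := by
  unfold Gp
  have : 0 ≤ 1 - p := by linarith
  positivity

lemma Gp_le_one (w : ℕ) {p : ℝ} (h0 : 0 ≤ p) (h1 : p ≤ 1) : Gp w p ≤ 1 := by
  unfold Gp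
  rcases Nat.eq_zero_or_pos w with hw | hw
  · subst hw; simp
  have ht0 : 0 ≤ 1 - p := by linarith
  have ht1 : 1 - p ≤ 1 := by linarith
  have hgeom := geom_sum_mul_neg (1 - p) w
  have hsum : (w : ℝ) * (1 - p) ^ (w - 1) ≤ ∑ i ∈ Finset.range w, (1 - p) ^ i := by
    have : ∑ i ∈ Finset.range w, (1 - p) ^ (w - 1) ≤ ∑ i ∈ Finset.range w, (1 - p) ^ i := by
      apply Finset.sum_le_sum
      intro i hi
      rw [Finset.mem_range] at hi
      exact pow_le_pow_of_le_one ht0 ht1 (by omega)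
    simpa using this
  have hp : (1 : ℝ) - (1 - p) = p := by ring
  rw [hp] at hgeom
  have hpow : 0 ≤ (1 - p) ^ w := pow_nonneg ht0 w
  calc (w : ℝ) * p * (1 - p) ^ (w - 1) = ((w : ℝ) * (1 - p) ^ (w - 1)) * p := by ring
    _ ≤ (∑ i ∈ Finset.range w, (1 - p) ^ i) * p := mul_le_mul_of_nonneg_right hsum h0
    _ = 1 - (1 - p) ^ w := hgeom
    _ ≤ 1 := by linarith

lemma pow_lower (N : ℕ) (hN : 2 ≤ N) : Real.exp (-1) ≤ (1 - 1 / (N : ℝ)) ^ (N - 1) := by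
  obtain ⟨M, rfl⟩ : ∃ M, N = M + 2 := ⟨N - 2, by omega⟩
  have hM : (0 : ℝ) ≤ M := Nat.cast_nonneg M
  have h1 : (1 : ℝ) - 1 / ((M + 2 : ℕ) : ℝ) = (1 + 1 / ((M : ℝ) + 1))⁻¹ := by
    push_cast; field_simp; ring
  have h2 : 1 + 1 / ((M : ℝ) + 1) ≤ Real.exp (1 / ((M : ℝ) + 1)) := by
    have := Real.add_one_le_exp (1 / ((M : ℝ) + 1)); linarith
  have h3 : (1 + 1 / ((M : ℝ) + 1)) ^ (M + 1) ≤ Real.exp 1 := by
    calc (1 + 1 / ((M : ℝ) + 1)) ^ (M + 1) ≤ (Real.exp (1 / ((M : ℝ) + 1))) ^ (M + 1) := by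
          gcongr
      _ = Real.exp 1 := by
          rw [← Real.exp_nat_mul]; congr 1; push_cast; field_simp
  rw [h1, show M + 2 - 1 = M + 1 by omega, inv_pow, Real.exp_neg]
  exact inv_anti₀ (by positivity) h3

lemma exp_one_lt : Real.exp 1 < 2.72 := by
  have := Real.exp_one_lt_d9; linarith

lemma Gp_lower_same (w l : ℕ) (hw : 1 ≤ w) (p : ℝ) (hp1 : 3 / 4 * (1 / 2 ^ l) ≤ p)
    (hp2 : p ≤ 1 / 2 ^ l) (hl : l = Nat.log 2 w) : 1 / 10 ≤ Gp w p := by
  have h1 : 2 ^ l ≤ w := by rw [hl]; exact Nat.pow_log_le_self 2 (by omega)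
  have h2 : w < 2 ^ (l + 1) := by rw [hl]; exact Nat.lt_pow_succ_log_self (by norm_num) w
  have hpos : (0 : ℝ) < 2 ^ l := by positivity
  have h1' : (2 : ℝ) ^ l ≤ w := by exact_mod_cast h1
  have hp0 : 0 < p := lt_of_lt_of_le (by positivity) hp1
  have hple : p ≤ 1 := by
    refine hp2.trans ?_
    rw [div_le_one hpos]; exact one_le_pow₀ (by norm_num)
  have hwp : 3 / 4 ≤ (w : ℝ) * p := by
    calc (3 : ℝ) / 4 = 2 ^ l * (3 / 4 * (1 / 2 ^ l)) := by field_simp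
      _ ≤ w * p := by gcongr
  unfold Gp
  rcases Nat.eq_zero_or_pos l with h0 | h0
  · have hw1 : w = 1 := by subst h0; norm_num at h2; omega
    subst hw1
    norm_num at hwp ⊢
    linarith
  · set N := 2 ^ l with hN
    have hN2 : 2 ≤ N := by
      rw [hN]
      calc 2 = 2 ^ 1 := by norm_num
        _ ≤ 2 ^ l := Nat.pow_le_pow_right (by norm_num) h0
    have hNr : (N : ℝ) = 2 ^ l := by rw [hN]; push_cast; ring
    have hlow := pow_lower N hN2
    have hbase0 : 0 ≤ 1 - 1 / (N : ℝ) := by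
      have : 1 / (N : ℝ) ≤ 1 := by
        rw [div_le_one (by rw [hNr]; exact hpos), hNr]; exact one_le_pow₀ (by norm_num)
      linarith
    have hbase1 : 1 - 1 / (N : ℝ) ≤ 1 := by
      have : 0 ≤ 1 / (N : ℝ) := by positivity
      linarith
    have hb : 1 - 1 / (N : ℝ) ≤ 1 - p := by rw [hNr]; linarith
    have hw' : w - 1 ≤ (N - 1) + (N - 1) := by
      have : w < 2 * N := by rw [pow_succ] at h2; omega
      omega
    have hpow : Real.exp (-1) * Real.exp (-1) ≤ (1 - p) ^ (w - 1) := by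
      calc Real.exp (-1) * Real.exp (-1) ≤ (1 - 1 / (N : ℝ)) ^ (N - 1) * (1 - 1 / (N : ℝ)) ^ (N - 1) := by
            gcongr
        _ = (1 - 1 / (N : ℝ)) ^ ((N - 1) + (N - 1)) := by rw [pow_add]
        _ ≤ (1 - 1 / (N : ℝ)) ^ (w - 1) := pow_le_pow_of_le_one hbase0 hbase1 hw'
        _ ≤ (1 - p) ^ (w - 1) := by gcongr
    have he : (1 : ℝ) / 2.72 ≤ Real.exp (-1) := by
      rw [Real.exp_neg, ← one_div]
      exact one_div_le_one_div_of_le (Real.exp_pos 1) exp_one_lt.le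
    calc (1 : ℝ) / 10 ≤ 3 / 4 * (1 / 2.72 * (1 / 2.72)) := by norm_num
      _ ≤ 3 / 4 * (Real.exp (-1) * Real.exp (-1)) := by gcongr
      _ ≤ (w : ℝ) * p * (1 - p) ^ (w - 1) := by gcongr

lemma Gp_lower_next (w l : ℕ) (hw : 1 ≤ w) (p : ℝ) (hp1 : 3 / 4 * (1 / 2 ^ l) ≤ p)
    (hp2 : p ≤ 1 / 2 ^ l) (hl : l = Nat.log 2 w + 1) : 1 / 10 ≤ Gp w p := by
  set k := Nat.log 2 w with hk
  subst hl
  have h1 : 2 ^ k ≤ w := Nat.pow_log_le_self 2 (by omega)
  have h2 : w < 2 ^ (k + 1) := Nat.lt_pow_succ_log_self (by norm_num) w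
  have hpos : (0 : ℝ) < 2 ^ k := by positivity
  have hpos' : (0 : ℝ) < 2 ^ (k + 1) := by positivity
  have h1' : (2 : ℝ) ^ k ≤ w := by exact_mod_cast h1
  have hp0 : 0 < p := lt_of_lt_of_le (by positivity) hp1
  have hwp : 3 / 8 ≤ (w : ℝ) * p := by
    calc (3 : ℝ) / 8 = 2 ^ k * (3 / 4 * (1 / 2 ^ (k + 1))) := by rw [pow_succ]; field_simp; norm_num
      _ ≤ w * p := by gcongr
  unfold Gp
  set N := 2 ^ (k + 1) with hN
  have hN2 : 2 ≤ N := by
    rw [hN]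
    calc 2 = 2 ^ 1 := by norm_num
      _ ≤ 2 ^ (k + 1) := Nat.pow_le_pow_right (by norm_num) (by omega)
  have hNr : (N : ℝ) = 2 ^ (k + 1) := by rw [hN]; push_cast; ring
  have hlow := pow_lower N hN2
  have hbase0 : 0 ≤ 1 - 1 / (N : ℝ) := by
    have : 1 / (N : ℝ) ≤ 1 := by
      rw [div_le_one (by rw [hNr]; exact hpos'), hNr]; exact one_le_pow₀ (by norm_num)
    linarith
  have hbase1 : 1 - 1 / (N : ℝ) ≤ 1 := by
    have : 0 ≤ 1 / (N : ℝ) := by positivity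
    linarith
  have hb : 1 - 1 / (N : ℝ) ≤ 1 - p := by rw [hNr]; linarith
  have hw' : w - 1 ≤ N - 1 := by omega
  have hpow : Real.exp (-1) ≤ (1 - p) ^ (w - 1) := by
    calc Real.exp (-1) ≤ (1 - 1 / (N : ℝ)) ^ (N - 1) := hlow
      _ ≤ (1 - 1 / (N : ℝ)) ^ (w - 1) := pow_le_pow_of_le_one hbase0 hbase1 hw'
      _ ≤ (1 - p) ^ (w - 1) := by gcongr
  have he : (1 : ℝ) / 2.72 ≤ Real.exp (-1) := by
    rw [Real.exp_neg, ← one_div]
    exact one_div_le_one_div_of_le (Real.exp_pos 1) exp_one_lt.le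
  calc (1 : ℝ) / 10 ≤ 3 / 8 * (1 / 2.72) := by norm_num
    _ ≤ 3 / 8 * Real.exp (-1) := by gcongr
    _ ≤ (w : ℝ) * p * (1 - p) ^ (w - 1) := by gcongr

lemma Gp_upper_high (w l d : ℕ) (p : ℝ) (hp0 : 0 ≤ p)
    (hp2 : p ≤ 1 / 2 ^ l) (hl : l = Nat.log 2 w + d) : Gp w p ≤ 2 / 2 ^ d := by
  have h2 : w < 2 ^ (Nat.log 2 w + 1) := Nat.lt_pow_succ_log_self (by norm_num) w
  set k := Nat.log 2 w with hk
  have h2' : (w : ℝ) ≤ 2 ^ (k + 1) := by exact_mod_cast h2.le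
  have hple : p ≤ 1 := by
    refine hp2.trans ?_
    rw [div_le_one (by positivity)]; exact one_le_pow₀ (by norm_num)
  unfold Gp
  have hpow : (1 - p) ^ (w - 1) ≤ 1 := pow_le_one₀ (by linarith) (by linarith)
  calc (w : ℝ) * p * (1 - p) ^ (w - 1) ≤ (w : ℝ) * p * 1 := by gcongr
    _ = w * p := by ring
    _ ≤ 2 ^ (k + 1) * (1 / 2 ^ l) := by gcongr
    _ = 2 / 2 ^ d := by
        have h5 : (2 : ℝ) ^ l = 2 ^ k * 2 ^ d := by rw [hl, pow_add]
        rw [h5, pow_succ]; field_simp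

lemma Gp_upper_low (w l d : ℕ) (hw : 1 ≤ w) (p : ℝ) (hp1 : 3 / 4 * (1 / 2 ^ l) ≤ p)
    (hp2 : p ≤ 1 / 2 ^ l) (hl : Nat.log 2 w = l + d) : Gp w p ≤ 16 / 2 ^ d := by
  have h1 : 2 ^ Nat.log 2 w ≤ w := Nat.pow_log_le_self 2 (by omega)
  have hp0 : 0 < p := lt_of_lt_of_le (by positivity) hp1
  have hple : p ≤ 1 := by
    refine hp2.trans ?_
    rw [div_le_one (by positivity)]; exact one_le_pow₀ (by norm_num)
  rcases Nat.eq_zero_or_pos d with hd | hd
  · subst hd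
    have := Gp_le_one w hp0.le hple
    norm_num
    linarith
  · have hw2 : 2 ≤ w := by
      have : 2 ^ 1 ≤ 2 ^ Nat.log 2 w := Nat.pow_le_pow_right (by norm_num) (by omega)
      omega
    have h1' : (2 : ℝ) ^ (l + d) ≤ w := by rw [← hl]; exact_mod_cast h1
    set y : ℝ := ((w - 1 : ℕ) : ℝ) * p with hy
    have hwm : ((w - 1 : ℕ) : ℝ) = (w : ℝ) - 1 := by rw [Nat.cast_sub hw]; norm_num
    have hw2' : (2 : ℝ) ≤ w := by exact_mod_cast hw2
    have hy0 : 0 < y := by rw [hy, hwm]; apply mul_pos _ hp0; linarith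
    have hylow : 3 / 8 * 2 ^ d ≤ y := by
      rw [hy, hwm]
      calc 3 / 8 * 2 ^ d = (2 ^ (l + d) / 2) * (3 / 4 * (1 / 2 ^ l)) := by
            rw [pow_add]; field_simp; norm_num
        _ ≤ ((w : ℝ) - 1) * p := by
            apply mul_le_mul _ hp1 (by positivity) (by linarith)
            linarith
    have hexp : (1 - p) ^ (w - 1) ≤ Real.exp (-y) := by
      have h3 : 1 - p ≤ Real.exp (-p) := by
        have := Real.add_one_le_exp (-p); linarith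
      calc (1 - p) ^ (w - 1) ≤ (Real.exp (-p)) ^ (w - 1) := by gcongr
        _ = Real.exp (-y) := by rw [← Real.exp_nat_mul]; congr 1; rw [hy]; ring
    have hq : Real.exp (-y) ≤ 2 / y ^ 2 := by
      rw [Real.exp_neg, inv_eq_one_div, div_le_div_iff₀ (Real.exp_pos y) (by positivity)]
      have := Real.quadratic_le_exp_of_nonneg hy0.le
      nlinarith
    have hwp : (w : ℝ) * p ≤ 2 * y := by
      rw [hy, hwm]; nlinarith
    unfold Gp
    calc (w : ℝ) * p * (1 - p) ^ (w - 1) ≤ 2 * y * (2 / y ^ 2) := by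
          apply mul_le_mul hwp (hexp.trans hq)
          · have : 0 ≤ 1 - p := by linarith
            positivity
          · positivity
      _ = 4 / y := by field_simp; norm_num
      _ ≤ 4 / (3 / 8 * 2 ^ d) := by gcongr
      _ ≤ 16 / 2 ^ d := by
          rw [div_le_div_iff₀ (by positivity) (by positivity)]
          have : (0 : ℝ) < 2 ^ d := by positivity
          nlinarith

/-- The potential decreases by one in expectation until the next success. -/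
lemma Phw_step (w : ℕ) (hw : 1 ≤ w) (s : S) (p : ℝ) (hp1 : 3 / 4 * (1 / 2 ^ lev s) ≤ p)
    (hp2 : p ≤ 1 / 2 ^ lev s) : 1 + (1 - Gp w p) * Phw w (fl s) ≤ Phw w s := by
  obtain ⟨h1, h2⟩ := theta_bounds w hw
  have hp0 : 0 < p := lt_of_lt_of_le (by positivity) hp1
  have hple : p ≤ 1 := by
    refine hp2.trans ?_
    rw [div_le_one (by positivity)]; exact one_le_pow₀ (by norm_num)
  have hG0 := Gp_nonneg w hp0.le hple
  have hA : 1 + (1 - Gp w p) * Phi (Nat.log 2 w) (fl s) ≤ Phi (Nat.log 2 w) s := by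
    have h3 := Phi_step (Nat.log 2 w) s
    have h4 := Phi_nonneg (Nat.log 2 w) (fl s)
    have h5 : ind (lev s = Nat.log 2 w) ≤ Gp w p := by
      by_cases h : lev s = Nat.log 2 w
      · rw [ind_pos h]; exact Gp_lower_same w (lev s) hw p hp1 hp2 h
      · rw [ind_neg h]; exact hG0
    nlinarith
  have hB : 1 + (1 - Gp w p) * Phi (Nat.log 2 w + 1) (fl s) ≤ Phi (Nat.log 2 w + 1) s := by
    have h3 := Phi_step (Nat.log 2 w + 1) s
    have h4 := Phi_nonneg (Nat.log 2 w + 1) (fl s)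
    have h5 : ind (lev s = Nat.log 2 w + 1) ≤ Gp w p := by
      by_cases h : lev s = Nat.log 2 w + 1
      · rw [ind_pos h]; exact Gp_lower_next w (lev s) hw p hp1 hp2 h
      · rw [ind_neg h]; exact hG0
    nlinarith
  unfold Phw
  set θ := ((w : ℝ) - 2 ^ Nat.log 2 w) / 2 ^ Nat.log 2 w
  have hA' := mul_le_mul_of_nonneg_left hA (sub_nonneg.mpr h2)
  have hB' := mul_le_mul_of_nonneg_left hB h1
  nlinarith

/-- distance between the level and the logarithm of the backlog -/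
def dist' (w : ℕ) (s : S) : ℕ := (Nat.log 2 w - lev s) + (lev s - Nat.log 2 w)

lemma Gp_upper (w : ℕ) (hw : 1 ≤ w) (s : S) (p : ℝ) (hp1 : 3 / 4 * (1 / 2 ^ lev s) ≤ p)
    (hp2 : p ≤ 1 / 2 ^ lev s) : Gp w p ≤ 16 / 2 ^ dist' w s := by
  have hp0 : 0 < p := lt_of_lt_of_le (by positivity) hp1
  rcases le_total (lev s) (Nat.log 2 w) with h | h
  · exact Gp_upper_low w (lev s) (dist' w s) hw p hp1 hp2 (by unfold dist'; omega)
  · have h1 := Gp_upper_high w (lev s) (dist' w s) p hp0.le hp2 (by unfold dist'; omega)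
    refine h1.trans ?_
    gcongr
    norm_num

noncomputable def cc (d : ℕ) : ℝ := (d : ℝ) ^ 2 + 23 * d + 231

lemma Phw_sc (w : ℕ) (hw : 2 ≤ w) (s : S) : Phw (w - 1) (sc s) ≤ cc (dist' w s + 1) := by
  obtain ⟨v, rfl⟩ : ∃ v, w = v + 1 := ⟨w - 1, by omega⟩
  simp only [Nat.add_sub_cancel]
  have hv : 1 ≤ v := by omega
  obtain ⟨h1, h2⟩ := theta_bounds v hv
  have hmono : Nat.log 2 v ≤ Nat.log 2 (v + 1) := Nat.log_mono_right (by omega)
  have hle : Nat.log 2 (v + 1) ≤ Nat.log 2 v + 1 := by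
    have h3 : v < 2 ^ (Nat.log 2 v + 1) := Nat.lt_pow_succ_log_self (by norm_num) v
    calc Nat.log 2 (v + 1) ≤ Nat.log 2 (2 ^ (Nat.log 2 v + 1)) := Nat.log_mono_right (by omega)
      _ = Nat.log 2 v + 1 := Nat.log_pow (by norm_num) _
  have hA := Phi_sc (Nat.log 2 v) s (dist' (v + 1) s + 1) (by unfold dist'; omega)
    (by unfold dist'; omega)
  have hB := Phi_sc (Nat.log 2 v + 1) s (dist' (v + 1) s + 1) (by unfold dist'; omega)
    (by unfold dist'; omega)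
  unfold Phw cc
  set θ := ((v : ℝ) - 2 ^ Nat.log 2 v) / 2 ^ Nat.log 2 v
  have hA' := mul_le_mul_of_nonneg_left hA (sub_nonneg.mpr h2)
  have hB' := mul_le_mul_of_nonneg_left hB h1
  nlinarith

lemma cc_decay (d : ℕ) (hd : 16 ≤ d) : 64 * cc (d + 1) ≤ 2 ^ d := by
  induction d, hd using Nat.le_induction with
  | base => unfold cc; norm_num
  | succ n hn ih =>
    have hn' : (16 : ℝ) ≤ n := by exact_mod_cast hn
    rw [pow_succ]
    unfold cc at *
    push_cast at *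
    nlinarith

lemma cc_small (d : ℕ) (hd : d < 16) : cc (d + 1) ≤ 1000 := by
  unfold cc
  have : (d : ℝ) ≤ 15 := by exact_mod_cast (by omega : d ≤ 15)
  have h0 : (0 : ℝ) ≤ d := Nat.cast_nonneg d
  push_cast
  nlinarith

/-- The gain of a success outweighs the loss of potential, up to `1/4000`. -/
lemma success_bound (g : ℝ) (hg0 : 0 ≤ g) (d : ℕ) (hg : g ≤ 16 / 2 ^ d) (x : ℝ)
    (hx : x ≤ cc (d + 1)) : g * (1 / 1000 * x - 1) ≤ 1 / 4000 := by
  rcases Nat.lt_or_ge d 16 with h | h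
  · have h1 := cc_small d h
    have h2 : 1 / 1000 * x - 1 ≤ 0 := by linarith
    nlinarith
  · have h1 := cc_decay d h
    have hpos : (0 : ℝ) < 2 ^ d := by positivity
    have hc0 : 0 ≤ cc (d + 1) := by unfold cc; positivity
    calc g * (1 / 1000 * x - 1) ≤ g * (1 / 1000 * cc (d + 1)) := by
          apply mul_le_mul_of_nonneg_left _ hg0; linarith
      _ ≤ 16 / 2 ^ d * (1 / 1000 * cc (d + 1)) := by gcongr
      _ = (64 * cc (d + 1)) / 2 ^ d * (1 / 4000) := by ring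
      _ ≤ 1 * (1 / 4000) := by
          gcongr
          rw [div_le_one hpos]; exact h1
      _ = 1 / 4000 := by ring

end Pool.Agent.Helper461.Drift
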