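import Mathlib

namespace Pool.Agent.Helper461.Foster

open scoped ENNReal
open Filter Topology

variable {X : Type} 

/-- Iterates of a starting distribution under the kernel `P`. -/
noncomputable def iter (P : X → X → ℝ≥0∞) (x₀ : X) : ℕ → X → ℝ≥0∞
  | 0 => fun y => open Classical in if y = x₀ then 1 else 0
  | n + 1 => fun y => ∑' x, iter P x₀ n x * P x y

lemma iter_sum (P : X → X → ℝ≥0∞) (hP : ∀ x, ∑' y, P x y = 1) (x₀ : X) (n : ℕ) :
    ∑' y, iter P x₀ n y = 1 := by
  induction n with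
  | zero => simp [iter]
  | succ n ih =>
    simp only [iter]
    rw [ENNReal.tsum_comm]
    simp_rw [ENNReal.tsum_mul_left, hP, mul_one]
    exact ih

lemma iter_V (P : X → X → ℝ≥0∞) (V : X → ℝ≥0∞) (x₀ : X) (n : ℕ) :
    ∑' y, iter P x₀ (n + 1) y * V y = ∑' x, iter P x₀ n x * ∑' y, P x y * V y := by
  simp only [iter]
  simp_rw [← ENNReal.tsum_mul_right]
  rw [ENNReal.tsum_comm]
  simp_rw [← ENNReal.tsum_mul_left, mul_assoc]

/-- **Foster's criterion, in the form giving a stationary distribution.** -/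
theorem exists_stationary (P : X → X → ℝ≥0∞) (hP : ∀ x, ∑' y, P x y = 1)
    (V : X → ℝ≥0∞) (C : Finset X) (ε b : ℝ≥0∞) (hε : ε ≠ 0) (hb : b ≠ ∞) (hε' : ε ≠ ∞)
    (x₀ : X) (hV₀ : V x₀ ≠ ∞)
    (hout : ∀ x, x ∉ C → ∑' y, P x y * V y + ε ≤ V x)
    (hin : ∀ x ∈ C, ∑' y, P x y * V y ≤ V x + b) :
    ∃ ν : X → ℝ≥0∞, ∑' x, ν x = 1 ∧ ∀ y, ∑' x, ν x * P x y = ν y := by
  classical
  set μ := iter P x₀ with hμ
  have hμ1 : ∀ n, ∑' y, μ n y = 1 := iter_sum P hP x₀
  have hμle : ∀ n y, μ n y ≤ 1 := fun n y => (ENNReal.le_tsum y).trans (hμ1 n).le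
  -- mass of `C`
  let c : ℕ → ℝ≥0∞ := fun n => ∑ x ∈ C, μ n x
  have hstep : ∀ n, ∑' y, μ (n + 1) y * V y + ε ≤ ∑' y, μ n y * V y + (b + ε) * c n := by
    intro n
    rw [hμ, iter_V, ← hμ]
    have h1 : ∀ x, μ n x * ∑' y, P x y * V y + μ n x * ε ≤
        μ n x * V x + (if x ∈ C then (b + ε) * μ n x else 0) := by
      intro x
      by_cases hx : x ∈ C
      · rw [if_pos hx]
        calc μ n x * ∑' y, P x y * V y + μ n x * ε ≤ μ n x * (V x + b) + μ n x * ε := by
              gcongr; exact hin x hx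
          _ = μ n x * V x + (b + ε) * μ n x := by ring
      · rw [if_neg hx, add_zero, ← mul_add]
        gcongr
        exact hout x hx
    have h2 := ENNReal.tsum_le_tsum h1
    rw [ENNReal.tsum_add, ENNReal.tsum_add, ENNReal.tsum_mul_right, hμ1 n, one_mul] at h2
    have h3 : ∑' x, (if x ∈ C then (b + ε) * μ n x else 0) = (b + ε) * c n := by
      rw [tsum_eq_sum (s := C) (fun x hx => if_neg hx), Finset.mul_sum]
      exact Finset.sum_congr rfl fun x hx => if_pos hx
    rw [h3] at h2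
    exact h2
  have hsum : ∀ N : ℕ, ∑' y, μ N y * V y + N * ε ≤
      V x₀ + (b + ε) * ∑ n ∈ Finset.range N, c n := by
    intro N
    induction N with
    | zero =>
      simp only [Nat.cast_zero, zero_mul, add_zero, Finset.range_zero, Finset.sum_empty, mul_zero]
      have : ∑' y, μ 0 y * V y = V x₀ := by
        simp [hμ, iter]
      rw [this]
    | succ N ih =>
      rw [Finset.sum_range_succ, mul_add, ← add_assoc]
      calc ∑' y, μ (N + 1) y * V y + ((N + 1 : ℕ) : ℝ≥0∞) * ε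
          = (∑' y, μ (N + 1) y * V y + ε) + N * ε := by push_cast; ring
        _ ≤ (∑' y, μ N y * V y + (b + ε) * c N) + N * ε := add_le_add_left (hstep N) _
        _ = (∑' y, μ N y * V y + N * ε) + (b + ε) * c N := by ring
        _ ≤ _ := by gcongr
  -- Cesaro averages
  let ν' : ℕ → X → ℝ≥0∞ := fun N y => (∑ n ∈ Finset.range (N + 1), μ n y) / ((N + 1 : ℕ) : ℝ≥0∞)
  have hν'le : ∀ N y, ν' N y ≤ 1 := by
    intro N y
    apply ENNReal.div_le_of_le_mul
    calc ∑ n ∈ Finset.range (N + 1), μ n y ≤ ∑ n ∈ Finset.range (N + 1), 1 :=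
          Finset.sum_le_sum fun n _ => hμle n y
      _ = _ := by simp
  -- the ultrafilter limit
  let U : Ultrafilter ℕ := hyperfilter ℕ
  have hU : (U : Filter ℕ) ≤ atTop := by
    rw [← Nat.cofinite_eq_atTop]; exact hyperfilter_le_cofinite
  have hlim : ∀ y, ∃ l : ℝ≥0∞, Tendsto (fun N => ν' N y) U (𝓝 l) := by
    intro y
    obtain ⟨l, -, hl⟩ := isCompact_univ.ultrafilter_le_nhds (U.map (fun N => ν' N y)) (by simp)
    exact ⟨l, hl⟩
  choose ν hν using hlim
  have hνle : ∀ y, ν y ≤ 1 := fun y => le_of_tendsto' (hν y) fun N => hν'le N y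
  have hν'sum : ∀ N, ∑' y, ν' N y = 1 := by
    intro N
    have hne : ((N + 1 : ℕ) : ℝ≥0∞) ≠ 0 := by simp
    have hnt : ((N + 1 : ℕ) : ℝ≥0∞) ≠ ∞ := ENNReal.natCast_ne_top _
    simp only [ν', div_eq_mul_inv]
    rw [ENNReal.tsum_mul_right, Summable.tsum_finsetSum (fun _ _ => ENNReal.summable)]
    simp_rw [hμ1]
    simp only [Finset.sum_const, Finset.card_range, nsmul_eq_mul, mul_one]
    exact ENNReal.mul_inv_cancel hne hnt
  have hfin_sum : ∀ (F : Finset X), ∑ x ∈ F, ν x ≤ 1 := by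
    intro F
    have h : Tendsto (fun N => ∑ x ∈ F, ν' N x) U (𝓝 (∑ x ∈ F, ν x)) :=
      tendsto_finsetSum _ fun x _ => hν x
    refine le_of_tendsto' h fun N => ?_
    exact (ENNReal.sum_le_tsum F).trans (hν'sum N).le
  have hνsum : ∑' x, ν x ≤ 1 := by
    rw [ENNReal.tsum_eq_iSup_sum]
    exact iSup_le hfin_sum
  -- sub-invariance
  have hsub : ∀ y, ∑' x, ν x * P x y ≤ ν y := by
    intro y
    rw [ENNReal.tsum_eq_iSup_sum]
    refine iSup_le fun F => ?_
    have hPt : ∀ x, P x y ≠ ∞ := fun x => by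
      have : P x y ≤ 1 := (ENNReal.le_tsum y).trans (hP x).le
      exact ne_top_of_le_ne_top ENNReal.one_ne_top this
    have h : Tendsto (fun N => ∑ x ∈ F, ν' N x * P x y) U (𝓝 (∑ x ∈ F, ν x * P x y)) :=
      tendsto_finsetSum _ fun x _ => ENNReal.Tendsto.mul_const (hν x) (Or.inr (hPt x))
    have h2 : Tendsto (fun N : ℕ => ν' N y + 1 / ((N + 1 : ℕ) : ℝ≥0∞)) U (𝓝 (ν y + 0)) := by
      refine (hν y).add ?_
      have h3 : Tendsto (fun N : ℕ => 1 / ((N + 1 : ℕ) : ℝ≥0∞)) atTop (𝓝 0) := by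
        have := (ENNReal.tendsto_inv_nat_nhds_zero).comp (tendsto_add_atTop_nat 1)
        simpa [Function.comp_def] using this
      exact h3.mono_left hU
    rw [add_zero] at h2
    refine le_of_tendsto_of_tendsto' h h2 fun N => ?_
    calc ∑ x ∈ F, ν' N x * P x y ≤ ∑' x, ν' N x * P x y := ENNReal.sum_le_tsum F
      _ = (∑ n ∈ Finset.range (N + 1), μ (n + 1) y) / ((N + 1 : ℕ) : ℝ≥0∞) := by
          simp only [ν', div_eq_mul_inv]
          have : ∀ x, (∑ n ∈ Finset.range (N + 1), μ n x) * ((N + 1 : ℕ) : ℝ≥0∞)⁻¹ * P x y =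
              (∑ n ∈ Finset.range (N + 1), μ n x * P x y) * ((N + 1 : ℕ) : ℝ≥0∞)⁻¹ := by
            intro x
            rw [Finset.sum_mul, Finset.sum_mul, Finset.sum_mul]
            refine Finset.sum_congr rfl fun n _ => ?_
            ring
          simp_rw [this]
          rw [ENNReal.tsum_mul_right, Summable.tsum_finsetSum (fun _ _ => ENNReal.summable)]
          rfl
      _ ≤ (∑ n ∈ Finset.range (N + 1), μ n y + 1) / ((N + 1 : ℕ) : ℝ≥0∞) := by
          gcongr
          calc ∑ n ∈ Finset.range (N + 1), μ (n + 1) y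
              ≤ ∑ n ∈ Finset.range (N + 1 + 1), μ n y := by
                rw [Finset.sum_range_succ' _ (N + 1)]
                exact le_self_add
            _ ≤ _ := by
                rw [Finset.sum_range_succ]
                gcongr
                exact hμle _ _
      _ = ν' N y + 1 / ((N + 1 : ℕ) : ℝ≥0∞) := by
          simp only [ν']
          rw [ENNReal.add_div]
  -- positive mass
  have hpos : ∑' x, ν x ≠ 0 := by
    intro h0
    have hz : ∀ x, ν x = 0 := by
      intro x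
      exact (ENNReal.tsum_eq_zero.mp h0) x
    have hC : Tendsto (fun N => ∑ x ∈ C, ν' N x) U (𝓝 0) := by
      have : Tendsto (fun N => ∑ x ∈ C, ν' N x) U (𝓝 (∑ x ∈ C, ν x)) :=
        tendsto_finsetSum _ fun x _ => hν x
      simpa [hz] using this
    have hle : ∀ N : ℕ, ε ≤ V x₀ / ((N + 1 : ℕ) : ℝ≥0∞) + (b + ε) * ∑ x ∈ C, ν' N x := by
      intro N
      have hne : ((N + 1 : ℕ) : ℝ≥0∞) ≠ 0 := by simp
      have hnt : ((N + 1 : ℕ) : ℝ≥0∞) ≠ ∞ := ENNReal.natCast_ne_top _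
      have h1 : ((N + 1 : ℕ) : ℝ≥0∞) * ε ≤ V x₀ + (b + ε) * ∑ n ∈ Finset.range (N + 1), c n :=
        le_trans le_add_self (hsum (N + 1))
      have h2 : ε ≤ (V x₀ + (b + ε) * ∑ n ∈ Finset.range (N + 1), c n) / ((N + 1 : ℕ) : ℝ≥0∞) := by
        rw [ENNReal.le_div_iff_mul_le (Or.inl hne) (Or.inl hnt), mul_comm]
        exact h1
      refine h2.trans (le_of_eq ?_)
      rw [ENNReal.add_div]
      congr 1
      simp only [ν', c, div_eq_mul_inv]
      rw [Finset.sum_comm, mul_assoc, Finset.sum_mul]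
    have hb' : b + ε ≠ ∞ := by simp [hb, hε']
    have hlim0 : Tendsto (fun N : ℕ => V x₀ / ((N + 1 : ℕ) : ℝ≥0∞) + (b + ε) * ∑ x ∈ C, ν' N x)
        U (𝓝 (0 + (b + ε) * 0)) := by
      refine Tendsto.add ?_ (ENNReal.Tendsto.const_mul hC (Or.inr hb'))
      have h3 : Tendsto (fun N : ℕ => V x₀ / ((N + 1 : ℕ) : ℝ≥0∞)) atTop (𝓝 0) := by
        have h4 := (ENNReal.tendsto_inv_nat_nhds_zero).comp (tendsto_add_atTop_nat 1)
        have h5 := ENNReal.Tendsto.const_mul (a := V x₀) h4 (Or.inr hV₀)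
        rw [mul_zero] at h5
        simpa [Function.comp_def, div_eq_mul_inv] using h5
      exact h3.mono_left hU
    rw [mul_zero, add_zero] at hlim0
    have := ge_of_tendsto' hlim0 hle
    exact hε (le_zero_iff.mp this)
  set M := ∑' x, ν x with hM
  have hMtop : M ≠ ∞ := ne_top_of_le_ne_top ENNReal.one_ne_top hνsum
  -- equality
  have htot : ∑' y, ∑' x, ν x * P x y = M := by
    rw [ENNReal.tsum_comm]
    simp_rw [ENNReal.tsum_mul_left, hP, mul_one]
    exact hM.symm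
  have heq : ∀ y, ∑' x, ν x * P x y = ν y := by
    by_contra hcon
    push Not at hcon
    obtain ⟨y, hy⟩ := hcon
    have hlt : ∑' x, ν x * P x y < ν y := lt_of_le_of_ne (hsub y) hy
    have : ∑' y, ∑' x, ν x * P x y < ∑' y, ν y :=
      ENNReal.tsum_lt_tsum (by rw [htot]; exact hMtop) hsub hlt
    rw [htot, ← hM] at this
    exact lt_irrefl _ this
  refine ⟨fun x => ν x / M, ?_, ?_⟩
  · simp only [div_eq_mul_inv]
    rw [ENNReal.tsum_mul_right, ← hM]
    exact ENNReal.mul_inv_cancel hpos hMtop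
  · intro y
    simp only [div_eq_mul_inv]
    have : ∀ x, ν x * M⁻¹ * P x y = ν x * P x y * M⁻¹ := fun x => by ring
    simp_rw [this]
    rw [ENNReal.tsum_mul_right, heq y]

end Pool.Agent.Helper461.Foster
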