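import Mathlib
import Pool.Agent.Helper461.Foster
import Pool.Agent.Helper461.Sweep
import Pool.Agent.Helper461.Drift

namespace Pool.Agent.Helper461.Chain

open Pool.Agent.Helper461.Sweep Pool.Agent.Helper461.Drift
open scoped ENNReal

/-- arrival rate -/
noncomputable def lam : ℝ := 1 / 8000

noncomputable def qr (a : ℕ) : ℝ := Real.exp (-lam) * lam ^ a / (a.factorial : ℝ)

noncomputable def q (a : ℕ) : ℝ≥0∞ := ENNReal.ofReal (qr a)

lemma lam_pos : 0 < lam := by unfold lam; norm_num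

lemma qr_nonneg (a : ℕ) : 0 ≤ qr a := by
  have := lam_pos
  unfold qr; positivity

lemma qr_hasSum : HasSum qr 1 := by
  have h0 : HasSum (fun a : ℕ => lam ^ a / (a.factorial : ℝ)) (Real.exp lam) := by
    have := NormedSpace.expSeries_div_hasSum_exp (𝔸 := ℝ) lam
    rwa [← Real.exp_eq_exp_ℝ] at this
  have h := h0.mul_left (Real.exp (-lam))
  rw [← Real.exp_add, neg_add_cancel, Real.exp_zero] at h
  have h2 : qr = fun a => Real.exp (-lam) * (lam ^ a / (a.factorial : ℝ)) := by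
    funext a; unfold qr; ring
  rw [h2]; exact h

lemma q_sum : ∑' a, q a = 1 := by
  unfold q
  rw [← ENNReal.ofReal_tsum_of_nonneg qr_nonneg qr_hasSum.summable, qr_hasSum.tsum_eq,
    ENNReal.ofReal_one]

lemma q_mean : ∑' a, q a * (a : ℝ≥0∞) = ENNReal.ofReal lam := by
  rw [tsum_eq_zero_add' ENNReal.summable]
  simp only [Nat.cast_zero, mul_zero, zero_add]
  have h : ∀ a : ℕ, q (a + 1) * ((a + 1 : ℕ) : ℝ≥0∞) = ENNReal.ofReal lam * q a := by
    intro a
    unfold q
    rw [← ENNReal.ofReal_natCast, ← ENNReal.ofReal_mul (qr_nonneg _),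
      ← ENNReal.ofReal_mul lam_pos.le]
    congr 1
    unfold qr
    rw [Nat.factorial_succ]
    push_cast
    field_simp
    ring
  simp_rw [h]
  rw [ENNReal.tsum_mul_left, q_sum, mul_one]

lemma q_zero : q 0 = ENNReal.ofReal (Real.exp (-lam)) := by
  unfold q qr; simp

/-- Expectation bound for a function with linear growth. -/
lemma expect_le (U : ℕ → ℝ) (u D : ℝ) (hu : 0 ≤ u) (hD : 0 ≤ D) (h : ∀ a, U a ≤ u + D * a) :
    ∑' a, q a * ENNReal.ofReal (U a) ≤ ENNReal.ofReal (u + D * lam) := by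
  calc ∑' a, q a * ENNReal.ofReal (U a)
      ≤ ∑' a, (ENNReal.ofReal u * q a + ENNReal.ofReal D * (q a * (a : ℝ≥0∞))) := by
        apply ENNReal.tsum_le_tsum
        intro a
        calc q a * ENNReal.ofReal (U a) ≤ q a * ENNReal.ofReal (u + D * a) := by
              gcongr; exact h a
          _ = ENNReal.ofReal u * q a + ENNReal.ofReal D * (q a * (a : ℝ≥0∞)) := by
              rw [ENNReal.ofReal_add hu (by positivity), ENNReal.ofReal_mul hD,
                ENNReal.ofReal_natCast]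
              ring
    _ = ENNReal.ofReal (u + D * lam) := by
        rw [ENNReal.tsum_add, ENNReal.tsum_mul_left, ENNReal.tsum_mul_left, q_sum, q_mean, mul_one,
          ENNReal.ofReal_add hu (mul_nonneg hD lam_pos.le), ENNReal.ofReal_mul hD]

/-- The same with a different bound when there is no arrival. -/
lemma expect_le' (U : ℕ → ℝ) (v u D : ℝ) (hu : 0 ≤ u) (hv : 0 ≤ v) (hD : 0 ≤ D) (h0 : U 0 ≤ v)
    (h : ∀ a, 1 ≤ a → U a ≤ u + D * a) :
    ∑' a, q a * ENNReal.ofReal (U a) ≤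
      ENNReal.ofReal (Real.exp (-lam) * v + (1 - Real.exp (-lam)) * u + D * lam) := by
  have he1 : Real.exp (-lam) ≤ 1 := by
    rw [Real.exp_le_one_iff]; linarith [lam_pos]
  have hq0 : ∑' a, q (a + 1) = ENNReal.ofReal (1 - Real.exp (-lam)) := by
    have h1 := q_sum
    rw [tsum_eq_zero_add' ENNReal.summable, q_zero] at h1
    rw [ENNReal.ofReal_sub _ (Real.exp_pos _).le, ENNReal.ofReal_one, ← h1]
    rw [ENNReal.add_sub_cancel_left ENNReal.ofReal_ne_top]
  have hqm : ∑' a : ℕ, q (a + 1) * ((a + 1 : ℕ) : ℝ≥0∞) = ENNReal.ofReal lam := by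
    have h1 := q_mean
    rw [tsum_eq_zero_add' ENNReal.summable] at h1
    simpa using h1
  rw [tsum_eq_zero_add' ENNReal.summable]
  have hA : q 0 * ENNReal.ofReal (U 0) ≤ ENNReal.ofReal (Real.exp (-lam) * v) := by
    rw [q_zero, ENNReal.ofReal_mul (Real.exp_pos _).le]
    gcongr
  have hB : ∑' a : ℕ, q (a + 1) * ENNReal.ofReal (U (a + 1)) ≤
      ENNReal.ofReal ((1 - Real.exp (-lam)) * u) + ENNReal.ofReal (D * lam) := by
    calc ∑' a : ℕ, q (a + 1) * ENNReal.ofReal (U (a + 1))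
        ≤ ∑' a : ℕ, (ENNReal.ofReal u * q (a + 1) +
            ENNReal.ofReal D * (q (a + 1) * ((a + 1 : ℕ) : ℝ≥0∞))) := by
          apply ENNReal.tsum_le_tsum
          intro a
          calc q (a + 1) * ENNReal.ofReal (U (a + 1))
              ≤ q (a + 1) * ENNReal.ofReal (u + D * ((a + 1 : ℕ) : ℝ)) := by
                gcongr; exact h (a + 1) (by omega)
            _ = _ := by
                rw [ENNReal.ofReal_add hu (by positivity), ENNReal.ofReal_mul hD,
                  ENNReal.ofReal_natCast]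
                ring
      _ = _ := by
          rw [ENNReal.tsum_add, ENNReal.tsum_mul_left, ENNReal.tsum_mul_left, hq0, hqm,
            ENNReal.ofReal_mul (by linarith), ENNReal.ofReal_mul hD, mul_comm (ENNReal.ofReal u)]
  calc _ ≤ ENNReal.ofReal (Real.exp (-lam) * v) +
        (ENNReal.ofReal ((1 - Real.exp (-lam)) * u) + ENNReal.ofReal (D * lam)) := add_le_add hA hB
    _ = _ := by
        have h1 : 0 ≤ Real.exp (-lam) * v := mul_nonneg (Real.exp_pos _).le hv
        have h2 : 0 ≤ (1 - Real.exp (-lam)) * u := mul_nonneg (by linarith) hu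
        have h3 : 0 ≤ D * lam := mul_nonneg hD lam_pos.le
        rw [← ENNReal.ofReal_add h2 h3, ← ENNReal.ofReal_add h1 (by linarith)]
        congr 1; ring

/-- Encoding of the memory in the transmission probability. -/
noncomputable def enc (s : S) : ℝ :=
  1 / 2 ^ lev s * (1 - 1 / 2 ^ (Encodable.encode s + 2))

lemma enc_small (n : ℕ) : (0 : ℝ) < 1 / 2 ^ (n + 2) ∧ (1 : ℝ) / 2 ^ (n + 2) ≤ 1 / 4 := by
  constructor
  · positivity
  · rw [pow_add]
    have : (1 : ℝ) ≤ 2 ^ n := one_le_pow₀ (by norm_num)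
    apply one_div_le_one_div_of_le (by norm_num)
    nlinarith

lemma enc_lower (s : S) : 3 / 4 * (1 / 2 ^ lev s) ≤ enc s := by
  obtain ⟨h1, h2⟩ := enc_small (Encodable.encode s)
  have : (0 : ℝ) < 1 / 2 ^ lev s := by positivity
  unfold enc; nlinarith

lemma enc_lt (s : S) : enc s < 1 / 2 ^ lev s := by
  obtain ⟨h1, h2⟩ := enc_small (Encodable.encode s)
  have : (0 : ℝ) < 1 / 2 ^ lev s := by positivity
  unfold enc; nlinarith

lemma enc_pos (s : S) : 0 < enc s := lt_of_lt_of_le (by positivity) (enc_lower s)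

lemma enc_le_one (s : S) : enc s ≤ 1 := by
  refine (enc_lt s).le.trans ?_
  rw [div_le_one (by positivity)]; exact one_le_pow₀ (by norm_num)

lemma enc_lev_le {s t : S} (h : enc s = enc t) : lev t ≤ lev s := by
  by_contra hlt
  push Not at hlt
  have h1 := enc_lower s
  have h2 := enc_lt t
  have h3 : (1 : ℝ) / 2 ^ lev t ≤ 1 / 2 * (1 / 2 ^ lev s) := by
    have : (2 : ℝ) ^ (lev s + 1) ≤ 2 ^ lev t := pow_le_pow_right₀ (by norm_num) hlt
    calc (1 : ℝ) / 2 ^ lev t ≤ 1 / 2 ^ (lev s + 1) := by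
          apply one_div_le_one_div_of_le (by positivity) this
      _ = _ := by rw [pow_succ]; field_simp
  have h4 : (0 : ℝ) < 1 / 2 ^ lev s := by positivity
  rw [h] at h1
  linarith

lemma enc_injective : Function.Injective enc := by
  intro s t h
  have hl : lev s = lev t := le_antisymm (enc_lev_le h.symm) (enc_lev_le h)
  unfold enc at h
  rw [hl] at h
  have hpos : (0 : ℝ) < 1 / 2 ^ lev t := by positivity
  have h1 := mul_left_cancel₀ hpos.ne' h
  have h2 : (2 : ℝ) ^ (Encodable.encode s + 2) = 2 ^ (Encodable.encode t + 2) := by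
    have h3 : (1 : ℝ) / 2 ^ (Encodable.encode s + 2) = 1 / 2 ^ (Encodable.encode t + 2) := by
      linarith
    rw [one_div, one_div] at h3
    exact inv_injective h3
  have h4 : Encodable.encode s + 2 = Encodable.encode t + 2 :=
    pow_right_injective₀ (by norm_num) (by norm_num) h2
  exact Encodable.encode_injective (by omega)

abbrev X : Type := ℕ × S

noncomputable def GG (x : X) : ℝ := Gp x.1 (enc x.2)

lemma GG_nonneg (x : X) : 0 ≤ GG x := Gp_nonneg _ (enc_pos _).le (enc_le_one _)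
lemma GG_le_one (x : X) : GG x ≤ 1 := Gp_le_one _ (enc_pos _).le (enc_le_one _)

/-- Law of the state `φ a`, with `a` Poisson. -/
noncomputable def K (φ : ℕ → X) (y : X) : ℝ≥0∞ :=
  open Classical in ∑' a, q a * (if y = φ a then 1 else 0)

lemma K_integral (φ : ℕ → X) (V : X → ℝ≥0∞) : ∑' y, K φ y * V y = ∑' a, q a * V (φ a) := by
  classical
  unfold K
  simp_rw [← ENNReal.tsum_mul_right]
  rw [ENNReal.tsum_comm]
  congr 1
  funext a
  have : ∀ y, q a * (if y = φ a then (1 : ℝ≥0∞) else 0) * V y =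
      if y = φ a then q a * V (φ a) else 0 := by
    intro y
    by_cases h : y = φ a
    · subst h; simp
    · simp [h]
  simp_rw [this]
  exact tsum_ite_eq (φ a) _

noncomputable def P (x y : X) : ℝ≥0∞ :=
  ENNReal.ofReal (GG x) * K (fun a => (x.1 - 1 + a, sc x.2)) y +
    ENNReal.ofReal (1 - GG x) * K (fun a => (x.1 + a, fl x.2)) y

lemma P_integral (x : X) (V : X → ℝ≥0∞) : ∑' y, P x y * V y =
    ENNReal.ofReal (GG x) * ∑' a, q a * V (x.1 - 1 + a, sc x.2) +
    ENNReal.ofReal (1 - GG x) * ∑' a, q a * V (x.1 + a, fl x.2) := by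
  unfold P
  simp_rw [add_mul, mul_assoc]
  rw [ENNReal.tsum_add, ENNReal.tsum_mul_left, ENNReal.tsum_mul_left, K_integral, K_integral]

lemma P_sum (x : X) : ∑' y, P x y = 1 := by
  have h := P_integral x (fun _ => 1)
  simp only [mul_one, q_sum] at h
  rw [h, ← ENNReal.ofReal_add (GG_nonneg x) (by linarith [GG_le_one x])]
  simp

/-- The potential function. -/
noncomputable def V (B : ℝ) (d₁ : ℕ) (x : X) : ℝ :=
  if x.1 = 0 then (if x.2.2 = (0, 0) ∧ x.2.1 ≤ d₁ then 0 else 1 / 1000 * (B + Env x.2))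
  else (x.1 : ℝ) + 1 / 1000 * Phw x.1 x.2

lemma V_nonneg (B : ℝ) (hB : 0 ≤ B) (d₁ : ℕ) (x : X) : 0 ≤ V B d₁ x := by
  unfold V
  split_ifs with h1 h2
  · exact le_rfl
  · have := Env_nonneg x.2; positivity
  · have := Phw_nonneg x.1 (by omega) x.2; positivity

lemma V_pos (B : ℝ) (d₁ : ℕ) (w : ℕ) (hw : 1 ≤ w) (s : S) :
    V B d₁ (w, s) = (w : ℝ) + 1 / 1000 * Phw w s := by
  unfold V; rw [if_neg (by simp; omega)]

lemma V_add (B : ℝ) (d₁ : ℕ) (w : ℕ) (hw : 1 ≤ w) (s : S) (a : ℕ) :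
    V B d₁ (w + a, s) ≤ (w : ℝ) + 1 / 1000 * Phw w s + (1 + 22 / 1000) * a := by
  rw [V_pos _ _ _ (by omega)]
  have := Phw_add w hw s a
  push_cast
  linarith

lemma V_zero_le (B : ℝ) (hB : 0 ≤ B) (d₁ : ℕ) (s : S) :
    V B d₁ (0, s) ≤ 1 / 1000 * (B + Env s) := by
  unfold V
  rw [if_pos rfl]
  split_ifs with h2
  · have := Env_nonneg s; positivity
  · exact le_rfl

/-- Assemble the two branches. -/
lemma P_bound (x : X) (W : X → ℝ) (E₁ E₂ : ℝ) (hE₁ : 0 ≤ E₁) (hE₂ : 0 ≤ E₂)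
    (h1 : ∑' a, q a * ENNReal.ofReal (W (x.1 - 1 + a, sc x.2)) ≤ ENNReal.ofReal E₁ ∨ GG x = 0)
    (h2 : ∑' a, q a * ENNReal.ofReal (W (x.1 + a, fl x.2)) ≤ ENNReal.ofReal E₂) :
    ∑' y, P x y * ENNReal.ofReal (W y) ≤ ENNReal.ofReal (GG x * E₁ + (1 - GG x) * E₂) := by
  rw [P_integral x (fun y => ENNReal.ofReal (W y))]
  have hg0 := GG_nonneg x
  have hg1 : 0 ≤ 1 - GG x := by linarith [GG_le_one x]
  rw [ENNReal.ofReal_add (mul_nonneg hg0 hE₁) (mul_nonneg hg1 hE₂), ENNReal.ofReal_mul hg0,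
    ENNReal.ofReal_mul hg1]
  refine add_le_add ?_ (by gcongr)
  rcases h1 with h1 | h1
  · gcongr
  · rw [h1]; simp

lemma finish (x : X) (W : X → ℝ) (T : ℝ)
    (h : ∑' y, P x y * ENNReal.ofReal (W y) ≤ ENNReal.ofReal T) (hT : 0 ≤ T)
    (hle : T + 1 / 4000 ≤ W x) :
    ∑' y, P x y * ENNReal.ofReal (W y) + ENNReal.ofReal (1 / 4000) ≤ ENNReal.ofReal (W x) := by
  calc _ ≤ ENNReal.ofReal T + ENNReal.ofReal (1 / 4000) := by gcongr
    _ = ENNReal.ofReal (T + 1 / 4000) := (ENNReal.ofReal_add hT (by norm_num)).symm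
    _ ≤ _ := ENNReal.ofReal_le_ofReal hle

lemma drift_big (B : ℝ) (d₁ : ℕ) (w : ℕ) (hw : 2 ≤ w) (s : S) :
    ∑' y, P (w, s) y * ENNReal.ofReal (V B d₁ y) + ENNReal.ofReal (1 / 4000) ≤
      ENNReal.ofReal (V B d₁ (w, s)) := by
  have hw1 : 1 ≤ w := by omega
  have hw1' : 1 ≤ w - 1 := by omega
  have hN1 := Phw_nonneg (w - 1) hw1' (sc s)
  have hN2 := Phw_nonneg w hw1 (fl s)
  have hlam := lam_pos
  have hE1 := expect_le (fun a => V B d₁ (w - 1 + a, sc s))
    (((w - 1 : ℕ) : ℝ) + 1 / 1000 * Phw (w - 1) (sc s)) (1 + 22 / 1000) (by positivity)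
    (by norm_num) (fun a => V_add B d₁ (w - 1) hw1' (sc s) a)
  have hE2 := expect_le (fun a => V B d₁ (w + a, fl s))
    ((w : ℝ) + 1 / 1000 * Phw w (fl s)) (1 + 22 / 1000) (by positivity)
    (by norm_num) (fun a => V_add B d₁ w hw1 (fl s) a)
  have hE1n : 0 ≤ ((w - 1 : ℕ) : ℝ) + 1 / 1000 * Phw (w - 1) (sc s) + (1 + 22 / 1000) * lam := by
    positivity
  have hE2n : 0 ≤ (w : ℝ) + 1 / 1000 * Phw w (fl s) + (1 + 22 / 1000) * lam := by positivity
  have hP := P_bound (w, s) (V B d₁) _ _ hE1n hE2n (Or.inl hE1) hE2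
  have hg0 := GG_nonneg (w, s)
  have hg1 := GG_le_one (w, s)
  refine finish _ _ _ hP ?_ ?_
  · have : 0 ≤ 1 - GG (w, s) := by linarith
    positivity
  · rw [V_pos _ _ _ hw1]
    have hstep := Phw_step w hw1 s (enc s) (enc_lower s) (enc_lt s).le
    have hup := Gp_upper w hw1 s (enc s) (enc_lower s) (enc_lt s).le
    have hsc := Phw_sc w hw s
    have hsb := success_bound (GG (w, s)) hg0 (dist' w s) hup (Phw (w - 1) (sc s)) hsc
    have hstep' : 1 + (1 - GG (w, s)) * Phw w (fl s) ≤ Phw w s := hstep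
    have hcast : ((w - 1 : ℕ) : ℝ) = (w : ℝ) - 1 := by rw [Nat.cast_sub hw1]; norm_num
    rw [hcast]
    have hl : lam = 1 / 8000 := rfl
    rw [hl]
    nlinarith

lemma Phi0_sc (s : S) : Phi 0 (sc s) ≤ cc (lev s) := by
  have := Phi_sc 0 s (lev s) (by omega) (by omega)
  unfold cc; exact this

lemma cc_mono_succ (d : ℕ) : cc d ≤ cc (d + 1) := by
  unfold cc
  have : (0 : ℝ) ≤ d := Nat.cast_nonneg d
  push_cast; nlinarith

lemma drift_one (B : ℝ) (hB : 0 ≤ B) (d₁ : ℕ)
    (hd₁ : ∀ l, d₁ < l → 64 * (B + 2 * cc l) ≤ 2 ^ l) (s : S) :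
    ∑' y, P (1, s) y * ENNReal.ofReal (V B d₁ y) + ENNReal.ofReal (1 / 4000) ≤
      ENNReal.ofReal (V B d₁ (1, s)) := by
  have hlam := lam_pos
  have he1 : Real.exp (-lam) ≤ 1 := by
    rw [Real.exp_le_one_iff]; linarith [lam_pos]
  have he0 := (Real.exp_pos (-lam)).le
  have hPh0 := Phi_nonneg 0 (sc s)
  have hN2 := Phw_nonneg 1 le_rfl (fl s)
  have hV0 := V_nonneg B hB d₁ (0, sc s)
  have hE1 := expect_le' (fun a => V B d₁ (1 - 1 + a, sc s)) (V B d₁ (0, sc s))
    (1 / 1000 * Phi 0 (sc s)) (1 + 22 / 1000) (by positivity) hV0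
    (by norm_num) (by simp) (by
      intro a ha
      obtain ⟨c, rfl⟩ : ∃ c, a = 1 + c := ⟨a - 1, by omega⟩
      have := V_add B d₁ 1 le_rfl (sc s) c
      rw [Phw_one] at this
      simp only [Nat.sub_self, zero_add]
      push_cast at this ⊢
      linarith)
  have hE2 := expect_le (fun a => V B d₁ (1 + a, fl s))
    (((1 : ℕ) : ℝ) + 1 / 1000 * Phw 1 (fl s)) (1 + 22 / 1000) (by positivity)
    (by norm_num) (fun a => V_add B d₁ 1 le_rfl (fl s) a)
  have hone : 0 ≤ 1 - Real.exp (-lam) := by linarith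
  have hE1n : 0 ≤ Real.exp (-lam) * V B d₁ (0, sc s) + (1 - Real.exp (-lam)) *
      (1 / 1000 * Phi 0 (sc s)) + (1 + 22 / 1000) * lam := by positivity
  have hE2n : 0 ≤ ((1 : ℕ) : ℝ) + 1 / 1000 * Phw 1 (fl s) + (1 + 22 / 1000) * lam := by positivity
  have hP := P_bound (1, s) (V B d₁) _ _ hE1n hE2n (Or.inl hE1) hE2
  have hg0 := GG_nonneg (1, s)
  have hg1 := GG_le_one (1, s)
  refine finish _ _ _ hP ?_ ?_
  · have : 0 ≤ 1 - GG (1, s) := by linarith
    positivity
  · rw [V_pos _ _ _ le_rfl]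
    have hstep : 1 + (1 - GG (1, s)) * Phw 1 (fl s) ≤ Phw 1 s :=
      Phw_step 1 le_rfl s (enc s) (enc_lower s) (enc_lt s).le
    have hup : GG (1, s) ≤ 16 / 2 ^ dist' 1 s :=
      Gp_upper 1 le_rfl s (enc s) (enc_lower s) (enc_lt s).le
    have hdist : dist' 1 s = lev s := by simp [dist']
    rw [hdist] at hup
    -- key bound
    have hkey : GG (1, s) * (V B d₁ (0, sc s) + 1 / 1000 * Phi 0 (sc s) - 1) ≤ 1 / 4000 := by
      rcases Nat.lt_or_ge d₁ (lev s) with h | h
      · have h1 := hd₁ (lev s) h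
        have h2 : V B d₁ (0, sc s) ≤ 1 / 1000 * (B + cc (lev s)) := by
          refine (V_zero_le B hB d₁ (sc s)).trans ?_
          have := Env_sc s
          unfold cc
          linarith
        have h3 := Phi0_sc s
        have hpos : (0 : ℝ) < 2 ^ lev s := by positivity
        have hc0 : 0 ≤ cc (lev s) := by unfold cc; positivity
        calc GG (1, s) * (V B d₁ (0, sc s) + 1 / 1000 * Phi 0 (sc s) - 1)
            ≤ GG (1, s) * (1 / 1000 * (B + 2 * cc (lev s))) := by
              apply mul_le_mul_of_nonneg_left _ hg0; linarith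
          _ ≤ 16 / 2 ^ lev s * (1 / 1000 * (B + 2 * cc (lev s))) := by gcongr
          _ = (64 * (B + 2 * cc (lev s))) / 2 ^ lev s * (1 / 4000) := by ring
          _ ≤ 1 * (1 / 4000) := by
              gcongr
              rw [div_le_one hpos]; exact h1
          _ = 1 / 4000 := by ring
      · have h2 : V B d₁ (0, sc s) = 0 := by
          unfold V
          rw [if_pos rfl, if_pos]
          exact ⟨rfl, h⟩
        rw [h2]
        have := success_bound (GG (1, s)) hg0 (lev s) hup (Phi 0 (sc s))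
          ((Phi0_sc s).trans (cc_mono_succ _))
        linarith
    have hA : Real.exp (-lam) * V B d₁ (0, sc s) ≤ V B d₁ (0, sc s) := by nlinarith
    have hBb : (1 - Real.exp (-lam)) * (1 / 1000 * Phi 0 (sc s)) ≤ 1 / 1000 * Phi 0 (sc s) := by
      have : 0 ≤ 1 / 1000 * Phi 0 (sc s) := by positivity
      nlinarith
    have hC : GG (1, s) * (Real.exp (-lam) * V B d₁ (0, sc s) + (1 - Real.exp (-lam)) *
      (1 / 1000 * Phi 0 (sc s)) + (1 + 22 / 1000) * lam) ≤
        GG (1, s) * (V B d₁ (0, sc s) + 1 / 1000 * Phi 0 (sc s) + (1 + 22 / 1000) * lam) := by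
      apply mul_le_mul_of_nonneg_left _ hg0; linarith
    have hl : lam = 1 / 8000 := rfl
    rw [hl] at hC ⊢
    push_cast
    nlinarith

lemma drift_zero (B : ℝ) (hB : 0 ≤ B) (d₁ : ℕ)
    (hB2 : 12 / 1000 + (1 + 22 / 1000) * lam + 1 / 4000 ≤ (1 - Real.exp (-lam)) * (1 / 1000 * B))
    (s : S) (hs : ¬ (s.2 = (0, 0) ∧ s.1 ≤ d₁)) :
    ∑' y, P (0, s) y * ENNReal.ofReal (V B d₁ y) + ENNReal.ofReal (1 / 4000) ≤
      ENNReal.ofReal (V B d₁ (0, s)) := by
  have hlam := lam_pos
  have he1 : Real.exp (-lam) ≤ 1 := by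
    rw [Real.exp_le_one_iff]; linarith [lam_pos]
  have he0 := (Real.exp_pos (-lam)).le
  have hone : 0 ≤ 1 - Real.exp (-lam) := by linarith
  have hEnv := Env_nonneg s
  have hEnv' := Env_step s
  have hPE := Phi_le_Env (fl s)
  have hE2 := expect_le' (fun a => V B d₁ (0 + a, fl s)) (1 / 1000 * (B + Env s + 12))
    (1 / 1000 * (Env s + 12)) (1 + 22 / 1000) (by positivity) (by positivity)
    (by norm_num) (by
      simp only [Nat.add_zero]
      refine (V_zero_le B hB d₁ (fl s)).trans ?_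
      linarith) (by
      intro a ha
      obtain ⟨c, rfl⟩ : ∃ c, a = 1 + c := ⟨a - 1, by omega⟩
      have := V_add B d₁ 1 le_rfl (fl s) c
      rw [Phw_one] at this
      simp only [zero_add]
      push_cast at this ⊢
      linarith)
  have hG : GG (0, s) = 0 := by simp [GG, Gp]
  have hE2n : 0 ≤ Real.exp (-lam) * (1 / 1000 * (B + Env s + 12)) + (1 - Real.exp (-lam)) *
      (1 / 1000 * (Env s + 12)) + (1 + 22 / 1000) * lam := by positivity
  have hP := P_bound (0, s) (V B d₁) 0 _ le_rfl hE2n (Or.inr hG) hE2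
  rw [hG] at hP
  refine finish _ _ _ hP ?_ ?_
  · linarith
  · have hV : V B d₁ (0, s) = 1 / 1000 * (B + Env s) := by
      unfold V
      rw [if_pos rfl, if_neg hs]
    rw [hV]
    nlinarith

theorem exists_pi : ∃ ν : X → ℝ≥0∞, ∑' x, ν x = 1 ∧ ∀ y, ∑' x, ν x * P x y = ν y := by
  classical
  have hlam := lam_pos
  have he1 : Real.exp (-lam) < 1 := by
    rw [Real.exp_lt_one_iff]; linarith [lam_pos]
  have hone : 0 < 1 - Real.exp (-lam) := by linarith
  set B : ℝ := (12 / 1000 + (1 + 22 / 1000) * lam + 1 / 4000) * 1000 / (1 - Real.exp (-lam)) with hBdef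
  have hB : 0 ≤ B := by positivity
  have hB2 : 12 / 1000 + (1 + 22 / 1000) * lam + 1 / 4000 ≤
      (1 - Real.exp (-lam)) * (1 / 1000 * B) := by
    rw [hBdef]; apply le_of_eq; field_simp
  obtain ⟨d₁, hd₁⟩ : ∃ d₁ : ℕ, ∀ l, d₁ < l → 64 * (B + 2 * cc l) ≤ 2 ^ l := by
    have h1 : Filter.Tendsto (fun l : ℕ => 64 * (B + 2 * cc l) / 2 ^ l) Filter.atTop (nhds 0) := by
      have hA : ∀ k : ℕ, Filter.Tendsto (fun l : ℕ => (l : ℝ) ^ k / 2 ^ l) Filter.atTop (nhds 0) :=
        fun k => tendsto_pow_const_div_const_pow_of_one_lt k (by norm_num)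
      have h2 := ((hA 2).const_mul 128).add (((hA 1).const_mul (128 * 23)).add
        ((hA 0).const_mul (64 * B + 128 * 231)))
      simp only [mul_zero, add_zero] at h2
      refine h2.congr ?_
      intro l
      unfold cc
      field_simp
      ring
    have h2 := h1.eventually (gt_mem_nhds (show (0 : ℝ) < 1 by norm_num))
    obtain ⟨d₁, hd₁⟩ := Filter.eventually_atTop.mp h2
    refine ⟨d₁, fun l hl => ?_⟩
    have h3 := hd₁ l hl.le
    rw [div_lt_one (by positivity)] at h3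
    exact h3.le
  let C : Finset X := (Finset.range (d₁ + 1)).image (fun l => (0, (l, 0, 0)))
  have hCmem : ∀ s : S, (s.2 = (0, 0) ∧ s.1 ≤ d₁) → ((0, s) : X) ∈ C := by
    rintro ⟨l, m⟩ ⟨h1, h2⟩
    simp only at h1 h2
    subst h1
    exact Finset.mem_image.mpr ⟨l, Finset.mem_range.mpr (by omega), rfl⟩
  have hPfin : ∀ x ∈ C, ∑' y, P x y * ENNReal.ofReal (V B d₁ y) ≠ ∞ := by
    intro x hx
    obtain ⟨l, hl, rfl⟩ := Finset.mem_image.mp hx
    -- finiteness via an expectation bound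
    have hEnv := Env_nonneg (fl (l, 0, 0))
    have hPE := Phi_le_Env (fl (l, 0, 0))
    have hE2 := expect_le (fun a => V B d₁ (0 + a, fl (l, 0, 0)))
      (1 / 1000 * (B + Env (fl (l, 0, 0)))) (1 + 22 / 1000) (by positivity)
      (by norm_num) (by
        intro a
        rcases Nat.eq_zero_or_pos a with ha | ha
        · subst ha
          have := V_zero_le B hB d₁ (fl (l, 0, 0))
          simpa using this
        · obtain ⟨c, rfl⟩ : ∃ c, a = 1 + c := ⟨a - 1, by omega⟩
          have := V_add B d₁ 1 le_rfl (fl (l, 0, 0)) c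
          rw [Phw_one] at this
          simp only [zero_add]
          push_cast at this ⊢
          linarith)
    have hG : GG (0, (l, 0, 0)) = 0 := by simp [GG, Gp]
    have hP := P_bound (0, (l, 0, 0)) (V B d₁) 0 _ le_rfl (by positivity) (Or.inr hG) hE2
    exact ne_top_of_le_ne_top ENNReal.ofReal_ne_top hP
  refine Foster.exists_stationary P P_sum (fun x => ENNReal.ofReal (V B d₁ x)) C
    (ENNReal.ofReal (1 / 4000)) (∑ x ∈ C, ∑' y, P x y * ENNReal.ofReal (V B d₁ y))
    (by simp) ?_ ENNReal.ofReal_ne_top (0, (0, 0, 0)) ENNReal.ofReal_ne_top ?_ ?_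
  · exact ENNReal.sum_ne_top.mpr hPfin
  · rintro ⟨w, s⟩ hx
    rcases Nat.lt_or_ge w 2 with h | h
    · interval_cases w
      · exact drift_zero B hB d₁ hB2 s (fun h => hx (hCmem s h))
      · exact drift_one B hB d₁ hd₁ s
    · exact drift_big B d₁ w h s
  · intro x hx
    refine le_trans ?_ le_add_self
    exact Finset.single_le_sum (f := fun x => ∑' y, P x y * ENNReal.ofReal (V B d₁ y))
      (fun _ _ => zero_le) hx

end Pool.Agent.Helper461.Chain
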